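import Pool.Agent.R30.Thr.Final

set_option autoImplicit false

/-!
A maximal thrackle with six vertices, no isolated vertex and only four edges.

The graph is the path `1 - 0 - 5 - 4` together with the edge `2 - 3`. In the plane: `0 1` is the
segment from `(-4,-4)` to `(9,9)`, `2 3` the segment from `(8,-1)` to `(8,100)`, `4 5` the segment
from `(-1,0)` to `(20,0)`, and `0 5` the polygonal arc `(-4,-4), (0,20), (20,0)`.
-/

namespace Pool.Agent.Results.MP_2f2fa8_co.RatioTwoThirds

open Pool.Agent.R30.Thr

/-- There is a maximal thrackle with `6` vertices, `4` edges and no isolated vertex; its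
edge-vertex ratio `4 / 6` is smaller than `4 / 5`. -/
theorem result : ∃ (G : SimpleGraph (Fin 6)) (T : Drawing G),
    T.IsMaximalThrackle ∧ (∀ v, ∃ w, G.Adj v w) ∧ G.edgeSet.ncard = 4 ∧
      (G.edgeSet.ncard : ℚ) / 6 < 4 / 5 := by
  refine ⟨G, D, D_maximal, G_noIsolated, G_edges, ?_⟩
  rw [G_edges]; norm_num

end Pool.Agent.Results.MP_2f2fa8_co.RatioTwoThirds
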